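import Pool.Agent.P8H27.EQ.Dis

/-!
# Means over orbits
-/

set_option autoImplicit false

namespace Pool.Agent.P8H27.EQ

theorem mean_eq_sum {B X : Type} [Fintype B] (f : X → ℝ) (φ : B → X) :
    mean f φ = (∑ b, f (φ b)) / (Fintype.card B : ℝ) := by
  unfold mean
  rw [finsum_eq_sum_of_fintype, Nat.card_eq_fintype_card]

theorem mean_congr {B B' X X' : Type} (e : B ≃ B') {f : X → ℝ} {f' : X' → ℝ} {φ : B → X}
    {φ' : B' → X'} (h : ∀ b, f (φ b) = f' (φ' (e b))) : mean f φ = mean f' φ' := by
  unfold mean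
  rw [Nat.card_congr e]
  congr 1
  rw [← finsum_comp_equiv e]
  exact finsum_congr h

/-- the mean over an orbit of a finite group is the mean over the group -/
theorem orb : S_ORB := by
  classical
  intro X R _ _ _ f x
  have hfin : (MulAction.orbit R x).Finite := Set.finite_range _
  have : Fintype (MulAction.orbit R x) := hfin.fintype
  rw [mean_eq_sum]
  have h1 : ∀ y : MulAction.orbit R x,
      (Finset.univ.filter fun r : R => (⟨r • x, ⟨r, rfl⟩⟩ : MulAction.orbit R x) = y).card =
        Fintype.card (MulAction.stabilizer R x) := by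
    rintro ⟨y, r₀, hr₀⟩
    rw [← Fintype.card_subtype]
    apply Fintype.card_congr
    refine ⟨fun r => ⟨r₀⁻¹ * r.1, ?_⟩, fun s => ⟨r₀ * s.1, ?_⟩, fun r => ?_, fun s => ?_⟩
    · rw [MulAction.mem_stabilizer_iff, mul_smul]
      have h2 : r.1 • x = y := congrArg Subtype.val r.2
      have h3 : r₀ • x = y := hr₀
      rw [h2, ← h3, inv_smul_smul]
    · apply Subtype.ext
      show (r₀ * s.1) • x = y
      have h3 : r₀ • x = y := hr₀
      rw [mul_smul, MulAction.mem_stabilizer_iff.1 s.2, h3]
    · apply Subtype.ext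
      exact mul_inv_cancel_left _ _
    · apply Subtype.ext
      exact inv_mul_cancel_left _ _
  have h2 : (∑ r : R, f (r • x)) =
      (Fintype.card (MulAction.stabilizer R x) : ℝ) * ∑ y : MulAction.orbit R x, f y := by
    rw [← Finset.sum_fiberwise (s := (Finset.univ : Finset R))
      (fun r : R => (⟨r • x, ⟨r, rfl⟩⟩ : MulAction.orbit R x)), Finset.mul_sum]
    apply Finset.sum_congr rfl
    intro y _
    rw [Finset.sum_congr rfl (g := fun _ => f (y : X)), Finset.sum_const, h1, nsmul_eq_mul]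
    intro r hr
    rw [← (Finset.mem_filter.1 hr).2]
  have h3 : (Fintype.card R : ℝ) = (Fintype.card (MulAction.stabilizer R x) : ℝ) *
      Fintype.card (MulAction.orbit R x) := by
    have h4 := MulAction.card_orbit_mul_card_stabilizer_eq_card_group R x
    rw [← h4]
    push_cast
    ring
  have h5 : (Fintype.card (MulAction.stabilizer R x) : ℝ) ≠ 0 := by
    exact_mod_cast Fintype.card_ne_zero
  rw [h2, h3, mul_div_mul_left _ _ h5]

section tuple

variable {Γ : Type} [Group Γ] {ΓF : Subgroup Γ} {r : ℕ} {Y : Fin r → Type}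
  [∀ j, MulAction ΓF (Y j)] (p : ∀ j, CMPacket ΓF (Y j))

/-- the finite set of the tuples -/
abbrev Tup : Type := ∀ j, (p j).pts

instance ptsFinite (j : Fin r) : Finite (p j).pts := (p j).finite_pts

instance tupFinite : Finite (Tup p) := inferInstance

/-- the tuple as a point of the product -/
def pt (y : Tup p) : ∀ j, Y j := fun j => y j

theorem pt_inj : Function.Injective (pt p) := by
  intro x y h
  funext j
  exact Subtype.ext (congrFun h j)

/-- the action of the Galois group on the tuples -/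
def gact (g : ΓF) (y : Tup p) : Tup p := fun j => ⟨g • (y j : Y j), (p j).stable g _ (y j).2⟩

theorem gact_one (y : Tup p) : gact p 1 y = y := by
  funext j
  exact Subtype.ext (one_smul _ _)

theorem gact_mul (g h : ΓF) (y : Tup p) : gact p (g * h) y = gact p g (gact p h y) := by
  funext j
  exact Subtype.ext (mul_smul _ _ _)

theorem pt_gact (g : ΓF) (y : Tup p) : pt p (gact p g y) = g • pt p y := rfl

/-- the Galois group as a group of permutations of the tuples -/
def perm : ΓF →* Equiv.Perm (Tup p) where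
  toFun g := ⟨gact p g, gact p g⁻¹, fun y => by rw [← gact_mul, inv_mul_cancel, gact_one],
    fun y => by rw [← gact_mul, mul_inv_cancel, gact_one]⟩
  map_one' := by
    ext1 y
    exact gact_one p y
  map_mul' g h := by
    ext1 y
    exact gact_mul p g h y

/-- the finite group of permutations -/
abbrev Rg : Subgroup (Equiv.Perm (Tup p)) := (perm p).range

theorem mem_Rg_apply (g : ΓF) (y : Tup p) :
    (⟨perm p g, ⟨g, rfl⟩⟩ : Rg p) • y = gact p g y := rfl

/-- the mean over the Galois orbit is the mean over the finite group of permutations -/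
theorem orbit_mean (f : (∀ j, Y j) → ℝ) (x : Tup p) [Fintype (Rg p)] :
    mean f (fun y : MulAction.orbit ΓF (pt p x) => (y : ∀ j, Y j)) =
      (∑ s : Rg p, f (pt p (s • x))) / (Fintype.card (Rg p) : ℝ) := by
  rw [← orb (Tup p) (Rg p) (fun y => f (pt p y)) x]
  symm
  have h1 : ∀ y : MulAction.orbit (Rg p) x, pt p y ∈ MulAction.orbit ΓF (pt p x) := by
    rintro ⟨_, ⟨⟨_, g, rfl⟩, rfl⟩⟩
    exact ⟨g, rfl⟩
  refine mean_congr (Equiv.ofBijective (fun y => ⟨pt p y, h1 y⟩) ⟨?_, ?_⟩) fun y => rfl
  · intro y z h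
    apply Subtype.ext
    exact pt_inj p (congrArg Subtype.val h)
  · rintro ⟨_, g, rfl⟩
    exact ⟨⟨gact p g x, ⟨⟨perm p g, ⟨g, rfl⟩⟩, rfl⟩⟩, rfl⟩

/-- the element of the group of permutations given by an element of `N` -/
def sg (σ : N p) : Rg p :=
  ⟨perm p ⟨σ, ΓF.normalCore_le (Subgroup.mem_inf.1 σ.2).2⟩, ⟨_, rfl⟩⟩

theorem sg_apply (σ : N p) (y : Tup p) : sg p σ • y = fun j => rh p j σ • y j := by
  funext j
  apply Subtype.ext
  exact (p j).galois (Subgroup.inclusion (N_le p j) σ)
    ⟨σ, ΓF.normalCore_le (Subgroup.mem_inf.1 σ.2).2⟩ rfl (y j)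

/-- averaging over a family of elements of `N` -/
theorem orbit_mean_avg (f : (∀ j, Y j) → ℝ) (x : Tup p) [Fintype (Rg p)] {T : Type} [Fintype T]
    [Nonempty T] (σ : T → N p) :
    mean f (fun y : MulAction.orbit ΓF (pt p x) => (y : ∀ j, Y j)) =
      (∑ s : Rg p, (∑ t, f (pt p (fun j => rh p j (σ t) • (s • x) j))) / (Fintype.card T : ℝ)) /
        (Fintype.card (Rg p) : ℝ) := by
  have hT : (Fintype.card T : ℝ) ≠ 0 := by exact_mod_cast Fintype.card_ne_zero
  rw [orbit_mean, ← Finset.sum_div, Finset.sum_comm]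
  congr 1
  rw [eq_div_iff hT]
  have h1 : ∀ t : T, ∑ s : Rg p, f (pt p (fun j => rh p j (σ t) • (s • x) j)) =
      ∑ s : Rg p, f (pt p (s • x)) := by
    intro t
    refine (Finset.sum_congr rfl fun s _ => ?_).trans
      (Equiv.sum_comp (Equiv.mulLeft (sg p (σ t))) fun s : Rg p => f (pt p (s • x)))
    show _ = f (pt p ((sg p (σ t) * s) • x))
    rw [mul_smul, sg_apply]
  rw [Finset.sum_congr rfl fun t _ => h1 t, Finset.sum_const, nsmul_eq_mul, mul_comm]
  rfl

/-- the mean is close to `I` if the means over a family of elements of `N` are -/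
theorem orbit_mean_le (f : (∀ j, Y j) → ℝ) (x : Tup p) {T : Type} [Fintype T]
    [Nonempty T] (σ : T → N p) {I ε : ℝ}
    (h : ∀ y : Tup p, |(∑ t, f (pt p (fun j => rh p j (σ t) • y j))) / (Fintype.card T : ℝ) - I| ≤
      ε) :
    |mean f (fun y : MulAction.orbit ΓF (pt p x) => (y : ∀ j, Y j)) - I| ≤ ε := by
  classical
  have : Fintype (Rg p) := Fintype.ofFinite _
  have hR : (0 : ℝ) < Fintype.card (Rg p) := by exact_mod_cast Fintype.card_pos
  rw [orbit_mean_avg p f x σ]
  have h1 : ∀ (a : Rg p → ℝ), (∀ s, |a s - I| ≤ ε) →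
      |(∑ s, a s) / (Fintype.card (Rg p) : ℝ) - I| ≤ ε := by
    intro a ha
    have h2 : (∑ s, a s) / (Fintype.card (Rg p) : ℝ) - I =
        (∑ s, (a s - I)) / (Fintype.card (Rg p) : ℝ) := by
      rw [Finset.sum_sub_distrib, Finset.sum_const, Finset.card_univ, nsmul_eq_mul, sub_div,
        mul_div_cancel_left₀ _ hR.ne']
    rw [h2, abs_div, abs_of_pos hR, div_le_iff₀ hR]
    refine (Finset.abs_sum_le_sum_abs _ _).trans ?_
    refine (Finset.sum_le_sum fun s _ => ha s).trans ?_
    rw [Finset.sum_const, Finset.card_univ, nsmul_eq_mul, mul_comm]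
  exact h1 _ fun s => h (s • x)

end tuple

end Pool.Agent.P8H27.EQ
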