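import Pool.Agent.P8H27.EQ.Stm

set_option autoImplicit false

/-!
# Package FOU
-/

namespace Pool.Agent.P8H27.EQ

open scoped ComplexConjugate

section
variable {B : Type} [AddCommGroup B] [Fintype B]

/-- the Fourier coefficient -/
noncomputable def fc (g : B → ℝ) (ψ : AddChar B ℂ) : ℂ :=
  (∑ a, ψ a * (g a : ℂ)) / (Fintype.card B : ℂ)

/-- the autocorrelation -/
noncomputable def aco (g : B → ℝ) (a : B) : ℝ := (∑ c, g (a + c) * g c) / (Fintype.card B : ℝ)

theorem fc_mul (g : B → ℝ) (ψ : AddChar B ℂ) :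
    fc g ψ * conj (fc g ψ) = (∑ c, ∑ x, ψ (x - c) * ((g x : ℂ) * (g c : ℂ))) / (Fintype.card B : ℂ) ^ 2 := by
  unfold fc
  rw [map_div₀, map_sum, div_mul_div_comm, Finset.sum_mul_sum, Finset.sum_comm, Complex.conj_natCast, ← sq]
  congr 1
  apply Finset.sum_congr rfl
  intro c _
  apply Finset.sum_congr rfl
  intro x _
  rw [map_mul, Complex.conj_ofReal, sub_eq_add_neg, AddChar.map_add_eq_mul, AddChar.map_neg_eq_conj]
  ring

theorem fc_aco (g : B → ℝ) (ψ : AddChar B ℂ) : fc (aco g) ψ = fc g ψ * conj (fc g ψ) := by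
  rw [fc_mul]
  unfold fc aco
  have h1 : ∀ a : B, ψ a * (((∑ c, g (a + c) * g c) / (Fintype.card B : ℝ) : ℝ) : ℂ) =
      (∑ c, ψ a * ((g (a + c) : ℂ) * (g c : ℂ))) / (Fintype.card B : ℂ) := by
    intro a
    push_cast
    rw [← Finset.mul_sum, mul_div_assoc]
  simp only [h1]
  rw [← Finset.sum_div, div_div, ← sq, Finset.sum_comm]
  congr 1
  apply Finset.sum_congr rfl
  intro c _
  rw [← Equiv.sum_comp (Equiv.subRight c) (fun a => ψ a * ((g (a + c) : ℂ) * (g c : ℂ)))]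
  apply Finset.sum_congr rfl
  intro x _
  simp only [Equiv.subRight_apply, sub_add_cancel]

theorem aco_eq (g : B → ℝ) (a : B) :
    ((aco g a : ℝ) : ℂ) = ∑ ψ : AddChar B ℂ, fc g ψ * conj (fc g ψ) * ψ (-a) := by
  classical
  have hn : (Fintype.card B : ℂ) ≠ 0 := by exact_mod_cast Fintype.card_ne_zero
  simp only [fc_mul]
  have h1 : ∀ ψ : AddChar B ℂ, (∑ c, ∑ x, ψ (x - c) * ((g x : ℂ) * (g c : ℂ))) / (Fintype.card B : ℂ) ^ 2 *
      ψ (-a) = (∑ c, ∑ x, ψ (x - c - a) * ((g x : ℂ) * (g c : ℂ))) / (Fintype.card B : ℂ) ^ 2 := by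
    intro ψ
    rw [div_mul_eq_mul_div, Finset.sum_mul]
    congr 1
    apply Finset.sum_congr rfl
    intro c _
    rw [Finset.sum_mul]
    apply Finset.sum_congr rfl
    intro x _
    rw [sub_eq_add_neg (x - c) a, AddChar.map_add_eq_mul ψ (x - c) (-a)]
    ring
  simp only [h1]
  rw [← Finset.sum_div, Finset.sum_comm]
  have h2 : ∀ c : B, ∑ ψ : AddChar B ℂ, ∑ x, ψ (x - c - a) * ((g x : ℂ) * (g c : ℂ)) =
      (Fintype.card B : ℂ) * ((g (a + c) : ℂ) * (g c : ℂ)) := by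
    intro c
    rw [Finset.sum_comm]
    have h3 : ∀ x : B, ∑ ψ : AddChar B ℂ, ψ (x - c - a) * ((g x : ℂ) * (g c : ℂ)) =
        if x = a + c then (Fintype.card B : ℂ) * ((g x : ℂ) * (g c : ℂ)) else 0 := by
      intro x
      rw [← Finset.sum_mul, AddChar.sum_apply_eq_ite]
      by_cases h : x = a + c
      · rw [if_pos h, if_pos (by rw [h]; abel)]
      · rw [if_neg h, if_neg (fun h' => h (by
          have : x = a + c := by
            have h4 : x - c = a := sub_eq_zero.1 h'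
            rw [← h4]; abel
          exact this)), zero_mul]
    simp only [h3]
    rw [Finset.sum_ite_eq' Finset.univ (a + c)]
    simp
  simp only [h2]
  rw [← Finset.mul_sum]
  unfold aco
  push_cast
  field_simp

/-- Parseval -/
theorem pars (g : B → ℝ) : (∑ a, aco g a ^ 2) / (Fintype.card B : ℝ) =
    ∑ ψ : AddChar B ℂ, ‖fc g ψ‖ ^ 4 := by
  have hz : ∀ z : ℂ, z * conj z = ((‖z‖ ^ 2 : ℝ) : ℂ) := by
    intro z
    rw [Complex.mul_conj, Complex.normSq_eq_norm_sq]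
  have h1 : (((∑ a, aco g a ^ 2) / (Fintype.card B : ℝ) : ℝ) : ℂ) =
      ((∑ ψ : AddChar B ℂ, ‖fc g ψ‖ ^ 4 : ℝ) : ℂ) := by
    push_cast
    have h2 : ∀ a, ((aco g a : ℝ) : ℂ) ^ 2 =
        ∑ ψ : AddChar B ℂ, fc g ψ * conj (fc g ψ) * (ψ (-a) * (aco g a : ℂ)) := by
      intro a
      calc ((aco g a : ℝ) : ℂ) ^ 2 = ((aco g a : ℝ) : ℂ) * ((aco g a : ℝ) : ℂ) := sq _
        _ = (∑ ψ : AddChar B ℂ, fc g ψ * conj (fc g ψ) * ψ (-a)) * ((aco g a : ℝ) : ℂ) := by
          rw [← aco_eq g a]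
        _ = _ := by
          rw [Finset.sum_mul]
          apply Finset.sum_congr rfl
          intro ψ _
          ring
    simp only [h2]
    rw [Finset.sum_comm, Finset.sum_div]
    apply Finset.sum_congr rfl
    intro ψ _
    rw [← Finset.mul_sum, mul_div_assoc]
    have h3 : (∑ a, ψ (-a) * ((aco g a : ℝ) : ℂ)) / (Fintype.card B : ℂ) = conj (fc (aco g) ψ) := by
      unfold fc
      rw [map_div₀, map_sum, Complex.conj_natCast]
      congr 1
      apply Finset.sum_congr rfl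
      intro a _
      rw [map_mul, Complex.conj_ofReal, AddChar.map_neg_eq_conj]
    rw [h3, fc_aco, map_mul, Complex.conj_conj]
    have h4 := hz (fc g ψ)
    calc fc g ψ * conj (fc g ψ) * (conj (fc g ψ) * fc g ψ)
        = (fc g ψ * conj (fc g ψ)) ^ 2 := by ring
      _ = _ := by
        rw [h4]
        push_cast
        ring
  exact_mod_cast h1

theorem pars2 (g : B → ℝ) : (∑ a, g a ^ 2) / (Fintype.card B : ℝ) =
    ∑ ψ : AddChar B ℂ, ‖fc g ψ‖ ^ 2 := by
  have h1 := aco_eq g 0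
  have h2 : ∀ ψ : AddChar B ℂ, fc g ψ * conj (fc g ψ) * ψ (-0) = ((‖fc g ψ‖ ^ 2 : ℝ) : ℂ) := by
    intro ψ
    rw [neg_zero, AddChar.map_zero_eq_one, mul_one, Complex.mul_conj, Complex.normSq_eq_norm_sq]
  simp only [h2] at h1
  have h3 : aco g 0 = ∑ ψ : AddChar B ℂ, ‖fc g ψ‖ ^ 2 := by exact_mod_cast h1
  rw [← h3]
  unfold aco
  congr 1
  apply Finset.sum_congr rfl
  intro c _
  rw [zero_add, sq]

theorem fou_add (F : B → ℝ) (w : ℝ) (hF : ∀ a, |F a| ≤ 1) (hw : 0 ≤ w)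
    (hc : ∀ ψ : AddChar B ℂ, ψ ≠ 0 → ‖fc F ψ‖ ≤ w) :
    (∑ a, |(∑ c, F (a + c) * F c) / (Fintype.card B : ℝ) -
      ((∑ c, F c) / (Fintype.card B : ℝ)) ^ 2|) / (Fintype.card B : ℝ) ≤ w := by
  obtain ⟨n, hn⟩ : ∃ n : ℝ, n = (Fintype.card B : ℝ) := ⟨_, rfl⟩
  have hn0 : 0 < n := by rw [hn]; exact_mod_cast Fintype.card_pos
  obtain ⟨m, hm⟩ : ∃ m : ℝ, m = (∑ c, F c) / n := ⟨_, rfl⟩
  have hm1 : ∑ c, F c = n * m := by rw [hm]; field_simp
  obtain ⟨g, hg⟩ : ∃ g : B → ℝ, g = fun a => F a - m := ⟨_, rfl⟩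
  have hshift : ∀ a, ∑ c, F (a + c) = n * m := by
    intro a
    rw [← hm1]
    exact Equiv.sum_comp (Equiv.addLeft a) F
  have hR : ∀ a, (∑ c, F (a + c) * F c) / n - m ^ 2 = aco g a := by
    intro a
    unfold aco
    rw [← hn, hg]
    have h1 : ∑ c, (F (a + c) - m) * (F c - m) = ∑ c, F (a + c) * F c - n * m ^ 2 := by
      have h2 : ∀ c, (F (a + c) - m) * (F c - m) =
          F (a + c) * F c - m * F (a + c) - m * F c + m ^ 2 := by intro c; ring
      simp only [h2]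
      rw [Finset.sum_add_distrib, Finset.sum_sub_distrib, Finset.sum_sub_distrib, ← Finset.mul_sum,
        ← Finset.mul_sum, hshift, hm1, Finset.sum_const, Finset.card_univ, nsmul_eq_mul, ← hn]
      ring
    simp only []
    rw [h1, sub_div, mul_div_cancel_left₀ _ hn0.ne']
  rw [← hn, ← hm]
  simp only [hR]
  have hcg : ∀ ψ : AddChar B ℂ, ‖fc g ψ‖ ≤ w := by
    intro ψ
    have h1 : fc g ψ = fc F ψ - m * ((∑ a, ψ a) / (Fintype.card B : ℂ)) := by
      unfold fc
      rw [hg]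
      have h2 : ∀ a, ψ a * ((F a - m : ℝ) : ℂ) = ψ a * (F a : ℂ) - m * ψ a := by
        intro a; push_cast; ring
      simp only [h2]
      rw [Finset.sum_sub_distrib, ← Finset.mul_sum]
      ring
    by_cases hψ : ψ = 0
    · have h3 : fc g ψ = 0 := by
        rw [h1, hψ]
        unfold fc
        have h4 : (Fintype.card B : ℂ) = (n : ℂ) := by rw [hn]; push_cast; rfl
        have h5 : (n : ℂ) ≠ 0 := by exact_mod_cast hn0.ne'
        have h6 : ∑ a, (F a : ℂ) = n * m := by exact_mod_cast hm1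
        simp only [AddChar.zero_apply, one_mul, Finset.sum_const, Finset.card_univ, nsmul_eq_mul, mul_one]
        rw [h6, h4, div_self h5]
        field_simp
        ring
      rw [h3, norm_zero]
      exact hw
    · have h3 : ∑ a, ψ a = 0 := (AddChar.sum_eq_zero_iff_ne_zero).2 hψ
      rw [h1, h3, zero_div, mul_zero, sub_zero]
      exact hc ψ hψ
  have h4 : (∑ a, aco g a ^ 2) / n ≤ w ^ 2 := by
    rw [hn, pars g]
    have h5 : ∑ ψ : AddChar B ℂ, ‖fc g ψ‖ ^ 4 ≤ ∑ ψ : AddChar B ℂ, w ^ 2 * ‖fc g ψ‖ ^ 2 := by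
      apply Finset.sum_le_sum
      intro ψ _
      have h6 : ‖fc g ψ‖ ^ 2 ≤ w ^ 2 := pow_le_pow_left₀ (norm_nonneg _) (hcg ψ) 2
      have h7 : 0 ≤ ‖fc g ψ‖ ^ 2 := by positivity
      nlinarith
    refine h5.trans ?_
    rw [← Finset.mul_sum, ← pars2 g]
    have h8 : (∑ a, g a ^ 2) / (Fintype.card B : ℝ) ≤ 1 := by
      rw [← hn, div_le_one hn0, hg]
      have h9 : ∑ a, (F a - m) ^ 2 = ∑ a, F a ^ 2 - n * m ^ 2 := by
        have h2 : ∀ a, (F a - m) ^ 2 = F a ^ 2 - (2 * m) * F a + m ^ 2 := by intro a; ring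
        simp only [h2]
        rw [Finset.sum_add_distrib, Finset.sum_sub_distrib, ← Finset.mul_sum, hm1, Finset.sum_const,
          Finset.card_univ, nsmul_eq_mul, ← hn]
        ring
      simp only []
      rw [h9]
      have h10 : ∑ a, F a ^ 2 ≤ n := by
        rw [hn]
        have h11 : ∑ a : B, F a ^ 2 ≤ ∑ _a : B, (1 : ℝ) := by
          apply Finset.sum_le_sum
          intro a _
          rw [← sq_abs]
          exact pow_le_one₀ (abs_nonneg _) (hF a)
        simpa using h11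
      have : 0 ≤ n * m ^ 2 := by positivity
      linarith
    calc w ^ 2 * ((∑ a, g a ^ 2) / (Fintype.card B : ℝ)) ≤ w ^ 2 * 1 :=
          mul_le_mul_of_nonneg_left h8 (by positivity)
      _ = w ^ 2 := mul_one _
  have h5 : ((∑ a, |aco g a|) / n) ^ 2 ≤ w ^ 2 := by
    refine le_trans ?_ h4
    have h6 := sq_sum_le_card_mul_sum_sq (s := (Finset.univ : Finset B)) (f := fun a => |aco g a|)
    rw [Finset.card_univ, ← hn] at h6
    simp only [sq_abs] at h6
    rw [div_pow, div_le_div_iff₀ (by positivity) hn0]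
    calc (∑ a, |aco g a|) ^ 2 * n ≤ (n * ∑ a, aco g a ^ 2) * n :=
          mul_le_mul_of_nonneg_right h6 hn0.le
      _ = (∑ a, aco g a ^ 2) * n ^ 2 := by ring
  exact le_of_sq_le_sq h5 hw

end

/-- package FOU -/
theorem fou : S_FOU := by
  intro A _ _ F w hF hw hc
  have h := @fou_add (Additive A) _ (inferInstanceAs (Fintype A)) (fun a => F a.toMul) w
    (fun a => hF _) hw (by
      intro ψ hψ
      have h1 := hc (AddChar.toMonoidHomEquiv ψ : Multiplicative (Additive A) →* ℂ) (by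
        intro h2
        apply hψ
        have h3 : AddChar.toMonoidHomEquiv ψ = AddChar.toMonoidHomEquiv (0 : AddChar (Additive A) ℂ) := h2
        exact AddChar.toMonoidHomEquiv.injective h3)
      exact h1)
  exact h

end Pool.Agent.P8H27.EQ
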