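import Mathlib

/-!
# Definitions: packets of CM points and their Galois action
-/

set_option autoImplicit false

namespace Pool.Agent.P8H27.EQ

open MeasureTheory

/-- A packet of special points with one CM field on a space `Y` with an action of `ΓF`.

Here `Γ` is the absolute Galois group of the rational numbers, `ΓF` the one of the field `F` over which `Y`
has its canonical model, `K` the one of the CM field (a quadratic field), `disc` the absolute value of the
discriminant of the order, `pts` the finite set of points, and `A` a finite commutative group (the class group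
of the order, or a quotient of it) which acts on `pts`. The elements of `Γ` which fix the CM field and the
Galois closure of `F` act on `pts` through `rho`, and conjugation by `τ ∈ Γ` changes `rho` to its inverse if
`τ` does not fix the CM field. -/
structure CMPacket {Γ : Type} [Group Γ] (ΓF : Subgroup Γ) (Y : Type) [MulAction ΓF Y] where
  disc : ℕ
  K : Subgroup Γ
  index_K : K.index = 2
  pts : Set Y
  finite_pts : pts.Finite
  stable : ∀ (g : ΓF) (z : Y), z ∈ pts → g • z ∈ pts
  A : Type
  [comm : CommGroup A]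
  [fin : Finite A]
  [act : MulAction A pts]
  rho : ↥(K ⊓ ΓF.normalCore) →* A
  galois : ∀ (σ : ↥(K ⊓ ΓF.normalCore)) (g : ΓF), (g : Γ) = σ →
    ∀ z : pts, g • (z : Y) = (rho σ • z : pts)
  conj : ∀ (τ : Γ) (σ σ' : ↥(K ⊓ ΓF.normalCore)), (σ' : Γ) = τ * σ * τ⁻¹ →
    (τ ∈ K → rho σ' = rho σ) ∧ (τ ∉ K → rho σ' = (rho σ)⁻¹)

attribute [instance] CMPacket.comm CMPacket.fin CMPacket.act

/-- The mean of the function `f` over the points `φ b`, `b ∈ B`, for a finite set `B`. -/
noncomputable def mean {B X : Type} (f : X → ℝ) (φ : B → X) : ℝ := (∑ᶠ b, f (φ b)) / Nat.card B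

section family

variable {Γ : Type} [Group Γ] {ΓF : Subgroup Γ} {Y : Type} [MulAction ΓF Y]

/-- The properties of the packets in the family `𝔓` which follow from the main theorem of complex
multiplication and from genus theory: the image of Galois has bounded index in `A`, and the number of the
elements of order at most two in `A` is at most `disc ^ η`, for every `η > 0`, for large `disc`. -/
structure IsCMFamily (𝔓 : Set (CMPacket ΓF Y)) : Prop where
  image : ∃ C : ℕ, ∀ p ∈ 𝔓, p.rho.range.index ≤ C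
  genus : ∀ η : ℝ, 0 < η → ∃ D₀ : ℕ, ∀ p ∈ 𝔓, D₀ ≤ p.disc →
    (Nat.card {a : p.A // a ^ 2 = 1} : ℝ) ≤ (p.disc : ℝ) ^ η

/-- The means of `f` over the orbits of all subgroups of `A` of index at most `disc ^ η` converge to the
integral of `f`. -/
def SmallIndex [MeasurableSpace Y] (μ : ProbabilityMeasure Y) (𝔓 : Set (CMPacket ΓF Y)) (f : Y → ℝ) :
    Prop :=
  ∃ η : ℝ, 0 < η ∧ ∀ ε : ℝ, 0 < ε → ∃ D₀ : ℕ, ∀ p ∈ 𝔓, D₀ ≤ p.disc → ∀ B : Subgroup p.A,
    (B.index : ℝ) ≤ (p.disc : ℝ) ^ η → ∀ z : p.pts,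
      |mean f (fun b : B => (((b : p.A) • z : p.pts) : Y)) - ∫ y, f y ∂(μ : Measure Y)| ≤ ε

/-- The Weyl sums of `f` for all characters `χ ≠ 1` of `A` are at most `C disc ^ (-δ)`. -/
def WeylSums (𝔓 : Set (CMPacket ΓF Y)) (f : Y → ℝ) : Prop :=
  ∃ δ : ℝ, 0 < δ ∧ ∃ C : ℝ, ∀ p ∈ 𝔓, ∀ χ : p.A →* ℂ, χ ≠ 1 → ∀ z : p.pts,
    ‖(∑ᶠ a : p.A, χ a * (f ((a • z : p.pts) : Y) : ℂ)) / Nat.card p.A‖ ≤ C * (p.disc : ℝ) ^ (-δ)

end family

end Pool.Agent.P8H27.EQ
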