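import Pool.Agent.P8H27.EQ.Stm

/-!
# Disjointness: the image of Galois contains the product of the groups of powers
-/

set_option autoImplicit false

namespace Pool.Agent.P8H27.EQ

section index

variable {A : Type} [CommGroup A] [Finite A]

theorem range_index (f : A →* A) : f.range.index = Nat.card f.ker := by
  have h1 := f.range.card_mul_index
  have h2 := f.ker.card_mul_index
  rw [Subgroup.index_ker] at h2
  have h3 : 0 < Nat.card f.range := Nat.card_pos
  have h4 : Nat.card f.range * f.range.index = Nat.card f.range * Nat.card f.ker := by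
    rw [h1, ← h2, mul_comm]
  exact Nat.eq_of_mul_eq_mul_left h3 h4

theorem map_index_le (f : A →* A) (R : Subgroup A) :
    (R.map f).index ≤ R.index * Nat.card f.ker := by
  rw [Subgroup.index_map, range_index]
  apply Nat.mul_le_mul_right
  have h1 : R.relIndex (R ⊔ f.ker) * (R ⊔ f.ker).index = R.index :=
    Subgroup.relIndex_mul_index le_sup_left
  have h2 : 0 < R.index := Nat.pos_of_ne_zero R.index_ne_zero_of_finite
  rw [← h1]
  have h3 : 0 < R.relIndex (R ⊔ f.ker) := by
    apply Nat.pos_of_ne_zero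
    intro h
    rw [h, zero_mul] at h1
    omega
  exact Nat.le_mul_of_pos_left _ h3

/-- the group of the `2 ^ n`-th powers of a subgroup -/
def pw (R : Subgroup A) (n : ℕ) : Subgroup A := R.map (powMonoidHom (2 ^ n))

omit [Finite A] in
theorem pw_succ (R : Subgroup A) (n : ℕ) : pw R (n + 1) = (pw R n).map (powMonoidHom 2) := by
  unfold pw
  rw [Subgroup.map_map]
  congr 1
  ext a
  simp only [powMonoidHom_apply, MonoidHom.comp_apply]
  rw [← pow_mul, pow_succ]

omit [Finite A] in
theorem ker_card : Nat.card (powMonoidHom 2 : A →* A).ker = Nat.card {a : A // a ^ 2 = 1} := by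
  apply Nat.card_congr
  exact Equiv.subtypeEquivRight fun a => by
    rw [MonoidHom.mem_ker, powMonoidHom_apply]

theorem pw_index (R : Subgroup A) (n : ℕ) :
    (pw R n).index ≤ R.index * Nat.card {a : A // a ^ 2 = 1} ^ n := by
  induction n with
  | zero =>
    have h : pw R 0 = R := by
      unfold pw
      have h1 : (powMonoidHom (2 ^ 0) : A →* A) = MonoidHom.id A := by
        ext a
        simp
      rw [h1, Subgroup.map_id]
    rw [h, pow_zero, mul_one]
  | succ n ih =>
    rw [pw_succ]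
    refine (map_index_le _ _).trans ?_
    rw [ker_card, pow_succ, ← mul_assoc]
    exact Nat.mul_le_mul_right _ ih

end index

section tuple

variable {Γ : Type} [Group Γ] {ΓF : Subgroup Γ} {r : ℕ} {Y : Fin r → Type}
  [∀ j, MulAction ΓF (Y j)] (p : ∀ j, CMPacket ΓF (Y j))

/-- the Galois group of the compositum -/
def N : Subgroup Γ := (⨅ j, (p j).K) ⊓ ΓF.normalCore

theorem N_le (j : Fin r) : N p ≤ (p j).K ⊓ ΓF.normalCore := inf_le_inf_right _ (iInf_le _ j)

instance K_normal (j : Fin r) : (p j).K.Normal := Subgroup.normal_of_index_eq_two (p j).index_K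

instance iInf_normal : (⨅ j, (p j).K).Normal := Subgroup.normal_iInf_normal fun j => K_normal p j

instance N_normal : (N p).Normal := Subgroup.normal_inf_normal _ _

/-- the homomorphism to the class group -/
def rh (j : Fin r) : N p →* (p j).A := (p j).rho.comp (Subgroup.inclusion (N_le p j))

theorem rh_conj (j : Fin r) (τ : Γ) (σ : N p) :
    (τ ∈ (p j).K → rh p j (MulAut.conjNormal τ σ) = rh p j σ) ∧
      (τ ∉ (p j).K → rh p j (MulAut.conjNormal τ σ) = (rh p j σ)⁻¹) := by
  apply (p j).conj τ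
  show ((MulAut.conjNormal τ σ : N p) : Γ) = _
  rw [MulAut.conjNormal_apply]
  rfl

theorem rh_conj_one (j : Fin r) (τ : Γ) (σ : N p) (h : rh p j σ = 1) :
    rh p j (MulAut.conjNormal τ σ) = 1 := by
  by_cases hτ : τ ∈ (p j).K
  · rw [(rh_conj p j τ σ).1 hτ, h]
  · rw [(rh_conj p j τ σ).2 hτ, h, inv_one]

theorem exists_tau {j k : Fin r} (h : (p j).K ≠ (p k).K) : ∃ τ, τ ∈ (p j).K ∧ τ ∉ (p k).K := by
  by_contra hc
  push Not at hc
  have hle : (p j).K ≤ (p k).K := fun τ hτ => hc τ hτ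
  have h1 := Subgroup.relIndex_mul_index hle
  rw [(p j).index_K, (p k).index_K] at h1
  have h2 : (p j).K.relIndex (p k).K = 1 := by omega
  exact h (le_antisymm hle (Subgroup.relIndex_eq_one.1 h2))

variable {S : Finset (Fin r)} (hS : ∀ j ∈ S, ∀ k ∈ S, j ≠ k → (p j).K ≠ (p k).K)

include hS in
theorem kill {j : Fin r} (hj : j ∈ S) (T : Finset (Fin r)) (hT : T ⊆ S.erase j) (σ : N p) :
    ∃ σ' : N p, rh p j σ' = rh p j σ ^ 2 ^ T.card ∧ ∀ k ∈ T, rh p k σ' = 1 := by
  classical
  induction T using Finset.induction_on with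
  | empty => exact ⟨σ, by simp, fun k hk => absurd hk (Finset.notMem_empty k)⟩
  | insert k T hk ih =>
    obtain ⟨σ', h1, h2⟩ := ih fun l hl => hT (Finset.mem_insert_of_mem hl)
    have hkS := hT (Finset.mem_insert_self k T)
    rw [Finset.mem_erase] at hkS
    obtain ⟨τ, hτj, hτk⟩ := exists_tau p (hS j hj k hkS.2 hkS.1.symm)
    refine ⟨σ' * MulAut.conjNormal τ σ', ?_, fun l hl => ?_⟩
    · rw [map_mul, (rh_conj p j τ σ').1 hτj, h1, ← pow_add, Finset.card_insert_of_notMem hk,
        pow_succ]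
      congr 1
      ring
    · rcases Finset.mem_insert.1 hl with rfl | h
      · rw [map_mul, (rh_conj p l τ σ').2 hτk, mul_inv_cancel]
      · rw [map_mul, h2 l h, rh_conj_one p l τ σ' (h2 l h), one_mul]

/-- the group of the powers of the image -/
def Bg (j : Fin r) : Subgroup (p j).A := pw (p j).rho.range r

theorem sq_mem (j : Fin r) (τ : ↥((p j).K ⊓ ΓF.normalCore)) : (τ : Γ) ^ 2 ∈ N p := by
  refine ⟨?_, ΓF.normalCore.pow_mem τ.2.2 2⟩
  show (τ : Γ) ^ 2 ∈ (⨅ j, (p j).K)
  rw [Subgroup.mem_iInf]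
  intro k
  exact Subgroup.sq_mem_of_index_two (p k).index_K _

theorem rh_sq (j : Fin r) (τ : ↥((p j).K ⊓ ΓF.normalCore)) :
    rh p j ⟨(τ : Γ) ^ 2, sq_mem p j τ⟩ = (p j).rho τ ^ 2 := by
  rw [← map_pow]
  rfl

include hS in
theorem single {j : Fin r} (hj : j ∈ S) {b : (p j).A} (hb : b ∈ Bg p j) :
    ∃ σ : N p, rh p j σ = b ∧ ∀ k ∈ S, k ≠ j → rh p k σ = 1 := by
  obtain ⟨_, ⟨τ, rfl⟩, rfl⟩ := hb
  obtain ⟨σ', h1, h2⟩ := kill p hS hj (S.erase j) (Finset.Subset.refl _)
    ⟨(τ : Γ) ^ 2, sq_mem p j τ⟩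
  have hc : S.card ≤ r := by
    have := Finset.card_le_univ S
    rwa [Fintype.card_fin] at this
  have hc0 : 0 < S.card := Finset.card_pos.2 ⟨j, hj⟩
  refine ⟨σ' ^ 2 ^ (r - S.card), ?_, fun k hk hkj => ?_⟩
  · rw [map_pow, h1, rh_sq, ← pow_mul, ← pow_mul, powMonoidHom_apply]
    congr 1
    rw [Finset.card_erase_of_mem hj, ← mul_assoc, ← pow_succ', ← pow_add]
    congr 1
    omega
  · rw [map_pow, h2 k (Finset.mem_erase.2 ⟨hkj, hk⟩), one_pow]

include hS in
/-- **the image of Galois contains the product of the groups of powers** -/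
theorem full (b : ∀ j, (p j).A) (hb : ∀ j ∈ S, b j ∈ Bg p j) :
    ∃ σ : N p, ∀ j ∈ S, rh p j σ = b j := by
  classical
  have h1 : ∀ j, ∃ σ : N p, j ∈ S → rh p j σ = b j ∧ ∀ k ∈ S, k ≠ j → rh p k σ = 1 := by
    intro j
    by_cases hj : j ∈ S
    · obtain ⟨σ, h⟩ := single p hS hj (hb j hj)
      exact ⟨σ, fun _ => h⟩
    · exact ⟨1, fun h => absurd h hj⟩
  choose s hs using h1
  refine ⟨(S.toList.map s).prod, fun k hk => ?_⟩
  rw [map_list_prod, List.map_map, Finset.prod_map_toList]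
  rw [Finset.prod_eq_single_of_mem k hk]
  · exact (hs k hk).1
  · intro j hj hjk
    exact (hs j hj).2 k hk hjk.symm

end tuple

end Pool.Agent.P8H27.EQ
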