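import Pool.Agent.P8H27.EQ.Orb

/-!
# Products of empirical measures
-/

set_option autoImplicit false

namespace Pool.Agent.P8H27.EQ

open MeasureTheory Filter Topology
open scoped BoundedContinuousFunction ENNReal

section emp

variable {X : Type} [MeasurableSpace X] {B : Type} [Fintype B]

/-- the empirical measure of a finite family -/
noncomputable def emp (φ : B → X) : Measure X :=
  (Fintype.card B : ℝ≥0∞)⁻¹ • ∑ b, Measure.dirac (φ b)

theorem emp_apply (φ : B → X) {s : Set X} (hs : MeasurableSet s) :
    emp φ s = (Fintype.card B : ℝ≥0∞)⁻¹ * ∑ b, s.indicator 1 (φ b) := by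
  unfold emp
  rw [Measure.smul_apply, Measure.finsetSum_apply, smul_eq_mul]
  congr 1
  apply Finset.sum_congr rfl
  intro b _
  exact Measure.dirac_apply' _ hs

theorem emp_univ [Nonempty B] (φ : B → X) : emp φ Set.univ = 1 := by
  rw [emp_apply φ MeasurableSet.univ]
  simp only [Set.indicator_univ, Pi.one_apply, Finset.sum_const, Finset.card_univ, nsmul_eq_mul,
    mul_one]
  apply ENNReal.inv_mul_cancel
  · exact_mod_cast Fintype.card_ne_zero
  · exact ENNReal.natCast_ne_top _

instance emp_prob [Nonempty B] (φ : B → X) : IsProbabilityMeasure (emp φ) := ⟨emp_univ φ⟩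

theorem emp_integral [TopologicalSpace X] [OpensMeasurableSpace X] (φ : B → X)
    (f : X →ᵇ ℝ) : ∫ x, f x ∂(emp φ) = (∑ b, f (φ b)) / (Fintype.card B : ℝ) := by
  unfold emp
  rw [integral_smul_measure, integral_finsetSum_measure]
  · rw [ENNReal.toReal_inv, ENNReal.toReal_natCast, smul_eq_mul, div_eq_inv_mul]
    congr 1
    apply Finset.sum_congr rfl
    intro b _
    exact integral_dirac' _ _ f.continuous.measurable.stronglyMeasurable
  · intro b _
    exact f.integrable _

end emp

theorem emp_pi {r : ℕ} {Y : Fin r → Type} [∀ j, MeasurableSpace (Y j)] {B : Fin r → Type}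
    [∀ j, Fintype (B j)] [∀ j, Nonempty (B j)] (φ : ∀ j, B j → Y j) :
    Measure.pi (fun j => emp (φ j)) = emp (fun b : ∀ j, B j => fun j => φ j (b j)) := by
  apply Measure.pi_eq
  intro s hs
  rw [emp_apply _ (MeasurableSet.univ_pi hs)]
  rw [Finset.prod_congr rfl fun j _ => emp_apply (φ j) (hs j), Finset.prod_mul_distrib]
  congr 1
  · rw [Fintype.card_pi, Nat.cast_prod, ENNReal.prod_inv_distrib]
    intro i _ j _ _
    right
    exact ENNReal.natCast_ne_top _
  · rw [Finset.prod_univ_sum]
    rw [Fintype.piFinset_univ]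
    apply Finset.sum_congr rfl
    intro b _
    by_cases h : (fun j => φ j (b j)) ∈ Set.univ.pi s
    · rw [Set.indicator_of_mem h, Pi.one_apply]
      symm
      apply Finset.prod_eq_one
      intro j _
      rw [Set.indicator_of_mem (h j (Set.mem_univ j)), Pi.one_apply]
    · rw [Set.indicator_of_notMem h]
      rw [Set.mem_univ_pi] at h
      push Not at h
      obtain ⟨j, hj⟩ := h
      symm
      exact Finset.prod_eq_zero (Finset.mem_univ j) (Set.indicator_of_notMem hj _)

/-- weak convergence of products of empirical measures -/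
theorem pim : S_PIM := by
  classical
  intro r Y _ _ _ _ _ μ B hB hB' φ h f
  have : ∀ i j, Fintype (B i j) := fun i j => Fintype.ofFinite _
  let ν : ∀ i j, ProbabilityMeasure (Y j) := fun i j => ⟨emp (φ i j), emp_prob _⟩
  have h1 : ∀ j, Tendsto (fun i => ν i j) atTop (𝓝 (μ j)) := by
    intro j
    rw [ProbabilityMeasure.tendsto_iff_forall_integral_tendsto]
    intro g
    refine (h j g).congr fun i => ?_
    rw [mean_eq_sum]
    exact (emp_integral (φ i j) g).symm
  have h2 : Tendsto (fun i => ProbabilityMeasure.pi (ν i)) atTop (𝓝 (ProbabilityMeasure.pi μ)) :=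
    (ProbabilityMeasure.continuous_pi.tendsto μ).comp (tendsto_pi_nhds.2 h1)
  rw [ProbabilityMeasure.tendsto_iff_forall_integral_tendsto] at h2
  refine (h2 f).congr fun i => ?_
  rw [mean_eq_sum]
  have h3 : ((ProbabilityMeasure.pi (ν i) : ProbabilityMeasure (∀ j, Y j)) :
      Measure (∀ j, Y j)) = emp (fun b : ∀ j, B i j => fun j => φ i j (b j)) :=
    emp_pi (φ i)
  rw [h3]
  exact emp_integral _ f

end Pool.Agent.P8H27.EQ
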