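import Pool.Agent.P8H27.EQ.Defs

/-!
# Statements of the packages
-/

set_option autoImplicit false

namespace Pool.Agent.P8H27.EQ

open MeasureTheory Filter Topology
open scoped BoundedContinuousFunction

/-- FOU. If the Fourier coefficients of `F`, `|F| ≤ 1`, at the characters `≠ 1` are at most `w`, then the
autocorrelation of `F` is close to the square of the mean of `F` in the mean. -/
def S_FOU : Prop :=
  ∀ (A : Type) [CommGroup A] [Fintype A] (F : A → ℝ) (w : ℝ), (∀ a, |F a| ≤ 1) → 0 ≤ w →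
    (∀ χ : A →* ℂ, χ ≠ 1 → ‖(∑ a, χ a * (F a : ℂ)) / (Fintype.card A : ℂ)‖ ≤ w) →
    (∑ a, |(∑ c, F (a * c) * F c) / (Fintype.card A : ℝ) -
      ((∑ c, F c) / (Fintype.card A : ℝ)) ^ 2|) / (Fintype.card A : ℝ) ≤ w

/-- PIM. Weak convergence of the empirical measures of the factors implies weak convergence of their
products. -/
def S_PIM : Prop :=
  ∀ (r : ℕ) (Y : Fin r → Type) [∀ j, TopologicalSpace (Y j)] [∀ j, SecondCountableTopology (Y j)]
    [∀ j, TopologicalSpace.PseudoMetrizableSpace (Y j)] [∀ j, MeasurableSpace (Y j)]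
    [∀ j, BorelSpace (Y j)] (μ : ∀ j, ProbabilityMeasure (Y j)) (B : ℕ → Fin r → Type)
    (_ : ∀ i j, Finite (B i j)) (_ : ∀ i j, Nonempty (B i j)) (φ : ∀ i j, B i j → Y j),
    (∀ j (f : Y j →ᵇ ℝ), Tendsto (fun i => mean f (φ i j)) atTop
      (𝓝 (∫ y, f y ∂(μ j : Measure (Y j))))) →
    ∀ f : (∀ j, Y j) →ᵇ ℝ,
      Tendsto (fun i => mean f (fun b : ∀ j, B i j => fun j => φ i j (b j))) atTop
        (𝓝 (∫ y, f y ∂(Measure.pi fun j => (μ j : Measure (Y j)))))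

/-- VAR. The variance of the means over the translates of the subgroup `H`. -/
def S_VAR : Prop :=
  ∀ (r : ℕ) (A : Fin r → Type) [∀ j, CommGroup (A j)] [∀ j, Fintype (A j)]
    (H : Subgroup (∀ j, A j)) [Fintype H] (S : Finset (Fin r)) (F : ∀ j, A j → ℝ),
    (∀ j a, |F j a| ≤ 1) →
    (∑ c : ∀ j, A j, ((∑ h : H, (∏ j ∈ S, F j ((h : ∀ j, A j) j)) *
        ∏ j ∈ Sᶜ, F j ((h : ∀ j, A j) j * c j)) / (Fintype.card H : ℝ) -
      (∑ h : H, ∏ j ∈ S, F j ((h : ∀ j, A j) j)) / (Fintype.card H : ℝ) *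
        ∏ j ∈ Sᶜ, (∑ a, F j a) / (Fintype.card (A j) : ℝ)) ^ 2) /
      (Fintype.card (∀ j, A j) : ℝ) ≤
    ∑ j ∈ Sᶜ, (∑ h : H, |(∑ a, F j ((h : ∀ j, A j) j * a) * F j a) / (Fintype.card (A j) : ℝ) -
      ((∑ a, F j a) / (Fintype.card (A j) : ℝ)) ^ 2|) / (Fintype.card H : ℝ)

/-- ORB. The mean over the orbit is the mean over a finite group. -/
def S_ORB : Prop :=
  ∀ (X : Type) (R : Type) [Group R] [Fintype R] [MulAction R X] (f : X → ℝ) (x : X),
    mean f (fun y : MulAction.orbit R x => (y : X)) = (∑ r : R, f (r • x)) / (Fintype.card R : ℝ)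

end Pool.Agent.P8H27.EQ
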