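import Pool.Agent.P8H27.EQ.Pim

/-!
# Pairwise different CM fields
-/

set_option autoImplicit false

namespace Pool.Agent.P8H27.EQ

open MeasureTheory Filter Topology
open scoped BoundedContinuousFunction ENNReal

section index

variable {Γ : Type} [Group Γ] {ΓF : Subgroup Γ} {Y : Type} [MulAction ΓF Y]

theorem index_small {𝔓 : Set (CMPacket ΓF Y)} (h : IsCMFamily 𝔓) (r : ℕ) {η : ℝ} (hη : 0 < η) :
    ∃ D₀ : ℕ, ∀ p ∈ 𝔓, D₀ ≤ p.disc → ((pw p.rho.range r).index : ℝ) ≤ (p.disc : ℝ) ^ η := by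
  obtain ⟨C, hC⟩ := h.image
  have hη' : 0 < η / (2 * (r + 1)) := by positivity
  obtain ⟨D₁, h₁⟩ := h.genus _ hη'
  have h2 : Tendsto (fun D : ℕ => (D : ℝ) ^ (η / 2)) atTop atTop :=
    (tendsto_rpow_atTop (half_pos hη)).comp tendsto_natCast_atTop_atTop
  obtain ⟨D₂, h₂⟩ := eventually_atTop.1 (h2.eventually_ge_atTop (C : ℝ))
  refine ⟨max 1 (max D₁ D₂), fun p hp hD => ?_⟩
  have hD1 : 1 ≤ p.disc := (le_max_left _ _).trans hD
  have hD2 : D₁ ≤ p.disc := (le_max_left _ _).trans ((le_max_right _ _).trans hD)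
  have hD3 : D₂ ≤ p.disc := (le_max_right _ _).trans ((le_max_right _ _).trans hD)
  have hd : (1 : ℝ) ≤ p.disc := by exact_mod_cast hD1
  have hd0 : (0 : ℝ) < p.disc := by linarith
  have h3 : ((pw p.rho.range r).index : ℝ) ≤
      (p.rho.range.index : ℝ) * (Nat.card {a : p.A // a ^ 2 = 1} : ℝ) ^ r := by
    exact_mod_cast pw_index p.rho.range r
  refine h3.trans ?_
  have h4 : (p.rho.range.index : ℝ) ≤ (p.disc : ℝ) ^ (η / 2) :=
    le_trans (by exact_mod_cast hC p hp) (h₂ p.disc hD3)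
  have h5 : (Nat.card {a : p.A // a ^ 2 = 1} : ℝ) ^ r ≤ (p.disc : ℝ) ^ (η / 2) := by
    refine (pow_le_pow_left₀ (Nat.cast_nonneg _) (h₁ p hp hD2) r).trans ?_
    rw [← Real.rpow_natCast, ← Real.rpow_mul hd0.le]
    apply Real.rpow_le_rpow_of_exponent_le hd
    rw [div_mul_eq_mul_div, div_le_div_iff₀ (by positivity) (by norm_num)]
    nlinarith
  calc (p.rho.range.index : ℝ) * (Nat.card {a : p.A // a ^ 2 = 1} : ℝ) ^ r
      ≤ (p.disc : ℝ) ^ (η / 2) * (p.disc : ℝ) ^ (η / 2) :=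
        mul_le_mul h4 h5 (by positivity) (by positivity)
    _ = (p.disc : ℝ) ^ η := by
        rw [← Real.rpow_add hd0, add_halves]

end index

section thm

variable {Γ : Type} [Group Γ] {ΓF : Subgroup Γ} {r : ℕ} {Y : Fin r → Type}
  [∀ j, MulAction ΓF (Y j)] [∀ j, TopologicalSpace (Y j)] [∀ j, SecondCountableTopology (Y j)]
  [∀ j, TopologicalSpace.PseudoMetrizableSpace (Y j)] [∀ j, MeasurableSpace (Y j)]
  [∀ j, BorelSpace (Y j)]

theorem thm1 (μ : ∀ j, ProbabilityMeasure (Y j)) (𝔓 : ∀ j, Set (CMPacket ΓF (Y j)))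
    (h𝔓 : ∀ j, IsCMFamily (𝔓 j)) (hμ : ∀ j, ∀ f : Y j →ᵇ ℝ, SmallIndex (μ j) (𝔓 j) f)
    (p : ℕ → ∀ j, CMPacket ΓF (Y j)) (hp : ∀ i j, p i j ∈ 𝔓 j)
    (hdisc : ∀ j, Tendsto (fun i => (p i j).disc) atTop atTop)
    (hK : ∀ i j k, j ≠ k → (p i j).K ≠ (p i k).K)
    (x : ℕ → ∀ j, Y j) (hx : ∀ i j, x i j ∈ (p i j).pts) (f : (∀ j, Y j) →ᵇ ℝ) :
    Tendsto (fun i => mean f (fun y : MulAction.orbit ΓF (x i) => (y : ∀ j, Y j))) atTop
      (𝓝 (∫ y, f y ∂(Measure.pi fun j => (μ j : Measure (Y j))))) := by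
  classical
  set I := ∫ y, f y ∂(Measure.pi fun j => (μ j : Measure (Y j))) with hI
  let T : ℕ → Type := fun i => ∀ j, Bg (p i) j
  have hTf : ∀ i, Fintype (T i) := fun i => Fintype.ofFinite _
  let x' : ∀ i, Tup (p i) := fun i j => ⟨x i j, hx i j⟩
  -- the means over the products of the groups of powers
  have key : ∀ ε : ℝ, 0 < ε → ∀ᶠ i in atTop, ∀ y : Tup (p i),
      |mean f (fun b : T i => pt (p i) (fun j => ((b j : (p i j).A)) • y j)) - I| ≤ ε := by
    intro ε hε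
    by_contra hc
    let bad : ∀ i, Tup (p i) → Prop := fun i y =>
      ¬ |mean f (fun b : T i => pt (p i) (fun j => ((b j : (p i j).A)) • y j)) - I| ≤ ε
    let y : ∀ i, Tup (p i) := fun i => if h : ∃ y, bad i y then h.choose else x' i
    have hy : ∀ i, (∃ z, bad i z) → bad i (y i) := by
      intro i h
      have h1 : y i = h.choose := dif_pos h
      rw [h1]
      exact h.choose_spec
    have hlim := pim r Y μ (fun i j => Bg (p i) j) (fun i j => inferInstance)
      (fun i j => inferInstance) (fun i j b => (((b : (p i j).A) • y i j : (p i j).pts) : Y j))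
      (by
        intro j g
        obtain ⟨η, hη, h1⟩ := hμ j g
        obtain ⟨D₁, h2⟩ := index_small (h𝔓 j) r hη
        rw [Metric.tendsto_atTop]
        intro δ hδ
        obtain ⟨D₂, h3⟩ := h1 (δ / 2) (half_pos hδ)
        obtain ⟨i₀, hi₀⟩ := eventually_atTop.1
          ((hdisc j).eventually_ge_atTop (max D₁ D₂))
        refine ⟨i₀, fun i hi => ?_⟩
        have hD := hi₀ i hi
        have h4 := h3 (p i j) (hp i j) ((le_max_right _ _).trans hD) (Bg (p i) j)
          (h2 (p i j) (hp i j) ((le_max_left _ _).trans hD)) (y i j)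
        rw [Real.dist_eq]
        exact lt_of_le_of_lt h4 (half_lt_self hδ))
      f
    have h5 : ∀ᶠ i in atTop, ¬ bad i (y i) := by
      rw [Metric.tendsto_atTop] at hlim
      obtain ⟨i₀, hi₀⟩ := hlim ε hε
      refine eventually_atTop.2 ⟨i₀, fun i hi => ?_⟩
      have h6 := hi₀ i hi
      rw [Real.dist_eq] at h6
      exact not_not.2 h6.le
    apply hc
    filter_upwards [h5] with i hi z
    by_contra hz
    exact hi (hy i ⟨z, hz⟩)
  rw [Metric.tendsto_atTop]
  intro ε hε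
  obtain ⟨i₀, hi₀⟩ := eventually_atTop.1 (key (ε / 2) (half_pos hε))
  refine ⟨i₀, fun i hi => ?_⟩
  have h1 : ∀ b : T i, ∃ σ : N (p i), ∀ j, rh (p i) j σ = (b j : (p i j).A) := by
    intro b
    obtain ⟨σ, hσ⟩ := full (p i) (S := Finset.univ) (fun j _ k _ hjk => hK i j k hjk)
      (fun j => (b j : (p i j).A)) (fun j _ => (b j).2)
    exact ⟨σ, fun j => hσ j (Finset.mem_univ j)⟩
  choose σ hσ using h1
  have h2 := orbit_mean_le (p i) f (x' i) σ (I := I) (ε := ε / 2) (by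
    intro y
    have h3 := hi₀ i hi y
    rw [mean_eq_sum] at h3
    have h4 : ∀ b : T i, pt (p i) (fun j => rh (p i) j (σ b) • y j) =
        pt (p i) (fun j => (b j : (p i j).A) • y j) := by
      intro b
      congr 1
      funext j
      rw [hσ]
    rw [Finset.sum_congr rfl fun b _ => by rw [h4 b]]
    exact h3)
  rw [Real.dist_eq]
  exact lt_of_le_of_lt h2 (half_lt_self hε)

end thm

end Pool.Agent.P8H27.EQ
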