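import Pool.Agent.P8H27.EQ.Stm

set_option autoImplicit false

/-!
# Package VAR
-/

namespace Pool.Agent.P8H27.EQ

/-- the mean of a product of functions of single coordinates -/
theorem pmean {r : ℕ} {A : Fin r → Type} [∀ j, Fintype (A j)] [∀ j, Nonempty (A j)] (T : Finset (Fin r))
    (g : ∀ j, A j → ℝ) :
    (∑ c : ∀ j, A j, ∏ j ∈ T, g j (c j)) / (Fintype.card (∀ j, A j) : ℝ) =
      ∏ j ∈ T, (∑ a, g j a) / (Fintype.card (A j) : ℝ) := by
  classical
  have h1 : ∀ c : ∀ j, A j, ∏ j ∈ T, g j (c j) = ∏ j, (if j ∈ T then g j (c j) else 1) := by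
    intro c
    rw [Finset.prod_ite_mem, Finset.univ_inter]
  have h2 : ∑ c : ∀ j, A j, ∏ j, (if j ∈ T then g j (c j) else 1) =
      ∏ j, ∑ a, (if j ∈ T then g j a else 1) := by
    rw [Finset.prod_univ_sum, Fintype.piFinset_univ]
  simp only [h1]
  rw [h2, Fintype.card_pi, Nat.cast_prod, ← Finset.prod_div_distrib]
  have h3 : ∀ j, (∑ a, (if j ∈ T then g j a else 1)) / (Fintype.card (A j) : ℝ) =
      if j ∈ T then (∑ a, g j a) / (Fintype.card (A j) : ℝ) else 1 := by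
    intro j
    by_cases h : j ∈ T
    · simp [h]
    · simp only [h, if_false, Finset.sum_const, Finset.card_univ, nsmul_eq_mul, mul_one]
      exact div_self (by exact_mod_cast Fintype.card_ne_zero)
  simp only [h3]
  rw [Finset.prod_ite_mem, Finset.univ_inter]

/-- the difference of two products of numbers of absolute value at most one -/
theorem abs_prod_sub {ι : Type*} (T : Finset ι) (a b : ι → ℝ) (ha : ∀ j, |a j| ≤ 1) (hb : ∀ j, |b j| ≤ 1) :
    |∏ j ∈ T, a j - ∏ j ∈ T, b j| ≤ ∑ j ∈ T, |a j - b j| := by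
  classical
  induction T using Finset.induction_on with
  | empty => simp
  | insert i T hi ih =>
    rw [Finset.prod_insert hi, Finset.prod_insert hi, Finset.sum_insert hi]
    have h1 : a i * ∏ j ∈ T, a j - b i * ∏ j ∈ T, b j =
        (a i - b i) * ∏ j ∈ T, a j + b i * (∏ j ∈ T, a j - ∏ j ∈ T, b j) := by ring
    have h2 : |∏ j ∈ T, a j| ≤ 1 := by
      rw [Finset.abs_prod]
      exact Finset.prod_le_one (fun j _ => abs_nonneg _) (fun j _ => ha j)
    rw [h1]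
    refine (abs_add_le _ _).trans ?_
    rw [abs_mul, abs_mul]
    have h3 : |a i - b i| * |∏ j ∈ T, a j| ≤ |a i - b i| * 1 :=
      mul_le_mul_of_nonneg_left h2 (abs_nonneg _)
    have h4 : |b i| * |∏ j ∈ T, a j - ∏ j ∈ T, b j| ≤ 1 * |∏ j ∈ T, a j - ∏ j ∈ T, b j| :=
      mul_le_mul_of_nonneg_right (hb i) (abs_nonneg _)
    linarith

/-- package VAR -/
theorem var : S_VAR := by
  intro r A _ _ H _ S F hF
  classical
  obtain ⟨T, hT⟩ : ∃ T, T = Sᶜ := ⟨_, rfl⟩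
  rw [← hT]
  obtain ⟨N, hN⟩ : ∃ N : ℝ, N = (Fintype.card (∀ j, A j) : ℝ) := ⟨_, rfl⟩
  obtain ⟨M, hM⟩ : ∃ M : ℝ, M = (Fintype.card H : ℝ) := ⟨_, rfl⟩
  have hM0 : 0 < M := by rw [hM]; exact_mod_cast Fintype.card_pos
  have hN0 : 0 < N := by rw [hN]; exact_mod_cast Fintype.card_pos
  rw [← hM, ← hN]
  let u : H → ℝ := fun h => ∏ j ∈ S, F j ((h : ∀ j, A j) j)
  let v : H → (∀ j, A j) → ℝ := fun h c => ∏ j ∈ T, F j ((h : ∀ j, A j) j * c j)
  let μ : ∀ j, ℝ := fun j => (∑ a, F j a) / (Fintype.card (A j) : ℝ)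
  let m : ℝ := ∏ j ∈ T, μ j
  let R : ∀ j, A j → ℝ := fun j a => (∑ b, F j (a * b) * F j b) / (Fintype.card (A j) : ℝ)
  have hcj : ∀ j, (0 : ℝ) < Fintype.card (A j) := fun j => by exact_mod_cast Fintype.card_pos
  have hu : ∀ h, |u h| ≤ 1 := by
    intro h
    show |∏ j ∈ S, F j ((h : ∀ j, A j) j)| ≤ 1
    rw [Finset.abs_prod]
    exact Finset.prod_le_one (fun j _ => abs_nonneg _) (fun j _ => hF j _)
  have hμ : ∀ j, |μ j| ≤ 1 := by
    intro j
    show |(∑ a, F j a) / (Fintype.card (A j) : ℝ)| ≤ 1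
    rw [abs_div, abs_of_pos (hcj j), div_le_one (hcj j)]
    refine (Finset.abs_sum_le_sum_abs _ _).trans ?_
    refine (Finset.sum_le_sum (fun a _ => hF j a)).trans ?_
    simp
  have hR : ∀ j a, |R j a| ≤ 1 := by
    intro j a
    show |(∑ b, F j (a * b) * F j b) / (Fintype.card (A j) : ℝ)| ≤ 1
    rw [abs_div, abs_of_pos (hcj j), div_le_one (hcj j)]
    refine (Finset.abs_sum_le_sum_abs _ _).trans ?_
    refine (Finset.sum_le_sum (g := fun _ => (1 : ℝ)) (fun b _ => ?_)).trans ?_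
    · rw [abs_mul]
      exact mul_le_one₀ (hF j _) (abs_nonneg _) (hF j _)
    · simp
  -- means of the `v`
  have hv1 : ∀ h, (∑ c, v h c) / N = m := by
    intro h
    rw [hN]
    have h1 := pmean T (fun j a => F j ((h : ∀ j, A j) j * a))
    have h2 : (∑ c : ∀ j, A j, v h c) = ∑ c : ∀ j, A j, ∏ j ∈ T, F j ((h : ∀ j, A j) j * c j) := rfl
    rw [h2, h1]
    apply Finset.prod_congr rfl
    intro j _
    show _ = (∑ a, F j a) / (Fintype.card (A j) : ℝ)
    rw [← Equiv.sum_comp (Equiv.mulLeft ((h : ∀ j, A j) j)) (F j)]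
    rfl
  have hv2 : ∀ h h' : H, (∑ c, v h c * v h' c) / N =
      ∏ j ∈ T, R j ((h : ∀ j, A j) j * ((h' : ∀ j, A j) j)⁻¹) := by
    intro h h'
    rw [hN]
    have h1 := pmean T (fun j a => F j ((h : ∀ j, A j) j * a) * F j ((h' : ∀ j, A j) j * a))
    have h2 : (∑ c : ∀ j, A j, v h c * v h' c) =
        ∑ c : ∀ j, A j, ∏ j ∈ T, (F j ((h : ∀ j, A j) j * c j) * F j ((h' : ∀ j, A j) j * c j)) := by
      apply Finset.sum_congr rfl
      intro c _
      rw [Finset.prod_mul_distrib]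
    rw [h2, h1]
    apply Finset.prod_congr rfl
    intro j _
    show _ = (∑ b, F j ((h : ∀ j, A j) j * ((h' : ∀ j, A j) j)⁻¹ * b) * F j b) / (Fintype.card (A j) : ℝ)
    rw [← Equiv.sum_comp (Equiv.mulLeft ((h' : ∀ j, A j) j))
      (fun b => F j ((h : ∀ j, A j) j * ((h' : ∀ j, A j) j)⁻¹ * b) * F j b)]
    congr 1
    apply Finset.sum_congr rfl
    intro b _
    simp only [Equiv.coe_mulLeft]
    rw [mul_assoc, inv_mul_cancel_left]
  have hcov : ∀ h h' : H, (∑ c, (v h c - m) * (v h' c - m)) / N =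
      ∏ j ∈ T, R j ((h : ∀ j, A j) j * ((h' : ∀ j, A j) j)⁻¹) - ∏ j ∈ T, μ j ^ 2 := by
    intro h h'
    have h1 : ∑ c, (v h c - m) * (v h' c - m) =
        ∑ c, v h c * v h' c - m * ∑ c, v h c - m * ∑ c, v h' c + N * m ^ 2 := by
      have h2 : ∀ c, (v h c - m) * (v h' c - m) = v h c * v h' c - m * v h c - m * v h' c + m ^ 2 := by
        intro c; ring
      simp only [h2]
      rw [Finset.sum_add_distrib, Finset.sum_sub_distrib, Finset.sum_sub_distrib, ← Finset.mul_sum,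
        ← Finset.mul_sum, Finset.sum_const, Finset.card_univ, nsmul_eq_mul, hN]
    rw [h1]
    have h3 : (∑ c, v h c * v h' c - m * ∑ c, v h c - m * ∑ c, v h' c + N * m ^ 2) / N =
        (∑ c, v h c * v h' c) / N - m * ((∑ c, v h c) / N) - m * ((∑ c, v h' c) / N) + m ^ 2 := by
      field_simp
    rw [h3, hv1, hv1, hv2]
    have h4 : ∏ j ∈ T, μ j ^ 2 = m ^ 2 := by rw [Finset.prod_pow]
    rw [h4]
    ring
  have hL : ∀ c : ∀ j, A j, ((∑ h : H, (∏ j ∈ S, F j ((h : ∀ j, A j) j)) *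
        ∏ j ∈ T, F j ((h : ∀ j, A j) j * c j)) / M -
      (∑ h : H, ∏ j ∈ S, F j ((h : ∀ j, A j) j)) / M *
        ∏ j ∈ T, (∑ a, F j a) / (Fintype.card (A j) : ℝ)) ^ 2 =
      (∑ h : H, ∑ h' : H, u h * u h' * ((v h c - m) * (v h' c - m))) / M ^ 2 := by
    intro c
    have h1 : (∑ h : H, (∏ j ∈ S, F j ((h : ∀ j, A j) j)) *
        ∏ j ∈ T, F j ((h : ∀ j, A j) j * c j)) / M -
      (∑ h : H, ∏ j ∈ S, F j ((h : ∀ j, A j) j)) / M *
        ∏ j ∈ T, (∑ a, F j a) / (Fintype.card (A j) : ℝ) = (∑ h : H, u h * (v h c - m)) / M := by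
      have h2 : ∑ h : H, u h * (v h c - m) = ∑ h : H, u h * v h c - (∑ h : H, u h) * m := by
        rw [Finset.sum_mul, ← Finset.sum_sub_distrib]
        apply Finset.sum_congr rfl
        intro h _
        ring
      rw [h2]
      show (∑ h : H, u h * v h c) / M - (∑ h : H, u h) / M * m = _
      ring
    rw [h1, div_pow, sq (∑ h : H, u h * (v h c - m)), Finset.sum_mul_sum]
    congr 1
    apply Finset.sum_congr rfl
    intro h _
    apply Finset.sum_congr rfl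
    intro h' _
    ring
  simp only [hL]
  have hE : (∑ c : ∀ j, A j, (∑ h : H, ∑ h' : H, u h * u h' * ((v h c - m) * (v h' c - m))) / M ^ 2) / N =
      (∑ h : H, ∑ h' : H, u h * u h' * ((∑ c, (v h c - m) * (v h' c - m)) / N)) / M ^ 2 := by
    rw [← Finset.sum_div, div_div, mul_comm (M ^ 2) N, ← div_div]
    congr 1
    rw [Finset.sum_comm, Finset.sum_div]
    apply Finset.sum_congr rfl
    intro h _
    rw [Finset.sum_comm, Finset.sum_div]
    apply Finset.sum_congr rfl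
    intro h' _
    rw [← Finset.mul_sum, mul_div_assoc]
  rw [hE]
  simp only [hcov]
  let w : ∀ j, A j → ℝ := fun j a => |R j a - μ j ^ 2|
  have hb : ∀ h h' : H, u h * u h' * (∏ j ∈ T, R j ((h : ∀ j, A j) j * ((h' : ∀ j, A j) j)⁻¹) -
      ∏ j ∈ T, μ j ^ 2) ≤ ∑ j ∈ T, w j ((h : ∀ j, A j) j * ((h' : ∀ j, A j) j)⁻¹) := by
    intro h h'
    refine (le_abs_self _).trans ?_
    rw [abs_mul, abs_mul]
    have h1 : |u h| * |u h'| ≤ 1 := mul_le_one₀ (hu h) (abs_nonneg _) (hu h')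
    have h2 := abs_prod_sub T (fun j => R j ((h : ∀ j, A j) j * ((h' : ∀ j, A j) j)⁻¹)) (fun j => μ j ^ 2)
      (fun j => hR j _) (fun j => by
        rw [abs_pow]
        exact pow_le_one₀ (abs_nonneg _) (hμ j))
    calc |u h| * |u h'| * |∏ j ∈ T, R j ((h : ∀ j, A j) j * ((h' : ∀ j, A j) j)⁻¹) - ∏ j ∈ T, μ j ^ 2|
        ≤ 1 * |∏ j ∈ T, R j ((h : ∀ j, A j) j * ((h' : ∀ j, A j) j)⁻¹) - ∏ j ∈ T, μ j ^ 2| :=
          mul_le_mul_of_nonneg_right h1 (abs_nonneg _)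
      _ ≤ _ := by rw [one_mul]; exact h2
  have hfin : (∑ h : H, ∑ h' : H, ∑ j ∈ T, w j ((h : ∀ j, A j) j * ((h' : ∀ j, A j) j)⁻¹)) =
      M * ∑ j ∈ T, ∑ h : H, w j ((h : ∀ j, A j) j) := by
    rw [Finset.sum_comm]
    have h1 : ∀ h' : H, ∑ h : H, ∑ j ∈ T, w j ((h : ∀ j, A j) j * ((h' : ∀ j, A j) j)⁻¹) =
        ∑ j ∈ T, ∑ h : H, w j ((h : ∀ j, A j) j) := by
      intro h'
      rw [Finset.sum_comm]
      apply Finset.sum_congr rfl
      intro j _
      rw [← Equiv.sum_comp (Equiv.mulRight (h'⁻¹)) (fun h : H => w j ((h : ∀ j, A j) j))]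
      apply Finset.sum_congr rfl
      intro h _
      simp
    simp only [h1]
    rw [Finset.sum_const, Finset.card_univ, nsmul_eq_mul, hM]
  calc (∑ h : H, ∑ h' : H, u h * u h' * (∏ j ∈ T, R j ((h : ∀ j, A j) j * ((h' : ∀ j, A j) j)⁻¹) -
        ∏ j ∈ T, μ j ^ 2)) / M ^ 2
      ≤ (∑ h : H, ∑ h' : H, ∑ j ∈ T, w j ((h : ∀ j, A j) j * ((h' : ∀ j, A j) j)⁻¹)) / M ^ 2 := by
        apply div_le_div_of_nonneg_right _ (by positivity)
        exact Finset.sum_le_sum fun h _ => Finset.sum_le_sum fun h' _ => hb h h'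
    _ = ∑ j ∈ T, (∑ h : H, w j ((h : ∀ j, A j) j)) / M := by
        rw [hfin, ← Finset.sum_div]
        field_simp
    _ = _ := rfl

end Pool.Agent.P8H27.EQ
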